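import Pool.Agent.X325.OB.IsoC

/-!
# Good minimal models for fibrations over towers whose fibres dominate a constant variety

Let `X` be a projective manifold (or a projective variety with canonical singularities) and

  `X ⇢ W_l ⇢ ... ⇢ W_1 ⇢ W_0 = P^{n_1} × ... × P^{n_m}`, `l ≥ 0`,

dominant rational maps. Suppose:

* (the base) in each factor there are hyperplanes `ℓ i k = 0`, in any position, with weights `wt i k
  ≥ 0` such that the arrangement is log canonical (the sum of the weights of hyperplanes with a
  common point is at most the codimension of their intersection) and `∑ k, wt i k ≥ n i + 1`: a log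
  Calabi-Yau arrangement if `∑ k, wt i k = n i + 1`, and one of log general type otherwise. If the
  `v i k` are the multiplicities of the hyperplanes at a prime divisor `P` of `X`, not all zero,
  then `1 ≤ ∑ i, (mx_i - ∑ k, wt i k * v i k)`, where `mx_i` is the greatest sum of `n i + 1` of the
  `v i k` whose hyperplanes have no common point, with strict inequality if a distinguished
  hyperplane `k0 i` of a log Calabi-Yau factor `i` has a positive multiplicity at `P`;
* (the steps of the tower) for each `i < l` one of the following:
  * (orbifold) the fibres of `W_{i+1}` over `W_i`, *with the multiplicities of the fibres of `X`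
    over `W_{i+1}`*, correspond to moving log canonical arrangements, of log general type
    (`OrbifoldFibres`);
  * (constant) the fibres of `W_{i+1}` over `W_i`, with the multiplicities of the fibres of `X` over
    `W_{i+1}`, correspond to one orbifold `(V_i, a_i)` of general type: there are a variety `X'`
    with a generically finite map `X' ⇢ X` and a rational map `X' ⇢ V_i` which is constant on the
    fibres of `X' ⇢ W_{i+1}` and dominant on the fibres of `X' ⇢ W_i`; `a_i (p)` is a nonnegative
    function (the log discrepancy) of places of `V_i`, and at the places `Q` over `P` (with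
    ramification index `ε`) which lie over `p` (with ramification index `ν`) one has `ε ≤ ν a_i (p)`
    (`ConstantFibres`). For instance `V_i` is a smooth projective variety, `a_i = 1`, and the fibres
    of `W_{i+1}` over `W_i` are birational to `V_i`;
* (the fibres of `X` over `W_l`) let `X → W` be the fibre space of `X ⇢ W_l` (`W` is the
  normalization of `W_l` in the function field of `X`) and `F` its geometric generic fibre, of
  dimension `f + 1`; `F` has a generically finite rational map to a variety `F₀` which is defined over
  `ℂ` (for instance, the fibres of `X → W` are all birational to `F₀`, or are covers of `F₀` with a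
  branch divisor which moves, or `F` is isogenous to a constant abelian variety).

Then `κ(X) ≥ dim W_l + κ(F₀)`, and `ν(X) ≤ dim W_l + ν(F)`. So if `κ(F₀) = ν(F)` then

  `κ(X) = ν(X) = dim W_l + κ(F₀)`:

abundance for the fibres implies abundance for `X`, without a condition on the dimension of `F`. By
the results of Lai, Gongyo and Lehmann, Birkar, Cascini, Hacon and McKernan, `X` has a good minimal
model, and the minimal model program with scaling terminates with it.

Notation: `K` and `M` are the function fields of `X` and `F₀`, `L` that of `W`. `KodTr k K n h`: the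
Kodaira dimension is at least `h`, that is, there are `h + 1` pluricanonical forms of which the `h`
ratios are algebraically independent; `NumLe k K n (fun _ => False) h`: the numerical dimension is at
most `h`, that is `h⁰ (m K + A) ≤ C m ^ h` for each divisor `A` (`Pool/Agent/W619`). The other
definitions are those of `Pool/Agent/X180/OP/CanDefs`, `X180/OD/Defs` and `Pool/Agent/Y191/LcForm`,
`LcLow`.
-/

set_option autoImplicit false

open FF Pool.Agent.W602.GT Pool.Agent.Y172 Pool.Agent.Y191
open Pool.Agent.X180.OP (IsCanonicalVariety)
open Pool.Agent.X180.OD (IsTower)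
open Pool.Agent.W619.Y (KodTr)
open Pool.Agent.W619.TW (NumLe)

namespace Pool.Agent.Results.MP_c1e25c_ag.FibresDominatingConstant

variable {m : ℕ} {n q : Fin m → ℕ}

/-- The base: the hyperplanes `ℓ i k = 0` in the projective space of dimension `n i` have weights
`wt i k ≥ 0` with sum at least `n i + 1`, and the arrangements are log canonical (`LcArr`, over the
field of constants). -/
def IsBase (ℓ : ∀ i, Fin (q i) → Fin (n i + 1) → ℂ) (wt : ∀ i, Fin (q i) → ℚ) : Prop :=
  (∀ i, (∀ k, 0 ≤ wt i k) ∧ (n i + 1 : ℚ) ≤ ∑ k, wt i k) ∧
    LcArr (⊥ : IntermediateField ℂ ℂ) ℓ wt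

/-- The affine coordinates `x i (j + 1) / x i 0` of the points with the homogeneous coordinates
`x i`. -/
def affine {K : Type} [Field K] (x : ∀ i, Fin (n i + 1) → K) (b : (i : Fin m) × Fin (n i)) : K :=
  x b.1 b.2.succ / x b.1 0

/-- The multiplicities over the base, at the prime divisors `P` of `X`: if the hyperplanes `ℓ i k`
have the multiplicities `v i k` at `P` (their orders are `a i + v i k`, where `a i` is the minimum
of the orders of the coordinates `x i j`), not all zero, then `1 ≤ ∑ i, (mx_i - ∑ k, wt i k * v i
k)`, with strict inequality if the multiplicity of the distinguished hyperplane `k0 i` is positive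
for some `i` with `∑ k, wt i k = n i + 1`. -/
def Multiplicities {K : Type} [Field K] [Algebra ℂ K] {N : ℕ} (y : Fin (N + 1) → K)
    (ℓ : ∀ i, Fin (q i) → Fin (n i + 1) → ℂ) (wt : ∀ i, Fin (q i) → ℚ)
    (x : ∀ i, Fin (n i + 1) → K) (k0 : ∀ i, Fin (q i)) : Prop :=
  ∀ P, IsPrimeDivisor y P → ∀ (a : Fin m → ℤ) (v : ∀ i, Fin (q i) → ℕ),
    (∀ i, MOrd P (fun k j => algebraMap ℂ K (ℓ i k j)) (x i) (a i) (v i)) → (∃ i, v i ≠ 0) →
    1 ≤ ∑ i, ((mx ℓ i (v i) : ℚ) - ∑ k, wt i k * v i k) ∧
      ((∃ i, ∑ k, wt i k = (n i + 1 : ℚ) ∧ v i (k0 i) ≠ 0) →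
        1 < ∑ i, ((mx ℓ i (v i) : ℚ) - ∑ k, wt i k * v i k))

/-- **Abundance for the fibres implies abundance.** Let `ℓ i` be log canonical arrangements of
hyperplanes with weights `wt i k` with sums at least `n i + 1`, as in `IsBase`. Let `X` be a
projective variety with canonical singularities, with function field `K`, of dimension `dim W_l + (f
+ 1)`, and `X ⇢ W_l ⇢ ... ⇢ W_0` a tower over the product `W_0` of the projective spaces, given by
homogeneous coordinates `x i`, whose steps (orbifold fibrations or constant orbifolds) are of (log)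
general type. Suppose that the condition `Multiplicities` holds. Let `L` be the algebraic closure of
the function field of `W_l` in `K`, `Λ` an algebraic closure of `L`, and `F` the function field of
the geometric generic fibre of `X → W`, which is generated by `K` and `Λ`. Let `M` be the function
field of a variety `F₀` over `ℂ` of dimension `f + 1` and let the geometric generic fibre have a
generically finite dominant rational map to `F₀`: `F` is algebraic over the field which is generated
by `Λ` and `M`. Then `κ(X) ≥ dim W_l + h` if `κ(F₀) ≥ h`, and `ν(X) ≤ dim W_l + h` if the numerical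
dimension of the geometric generic fibre is at most `h`. -/
theorem result (ℓ : ∀ i, Fin (q i) → Fin (n i + 1) → ℂ) (wt : ∀ i, Fin (q i) → ℚ)
    (hℓ : IsBase ℓ wt) (k0 : ∀ i, Fin (q i)) (K : Type) [Field K] [Algebra ℂ K]
    [Algebra.EssFiniteType ℂ K] (N l f : ℕ)
    (E : Fin (l + 1) → IntermediateField ℂ K) (D : Fin (l + 1) → ℕ) (e : Fin l → ℕ)
    (y : Fin (N + 1) → K) (hy : IsCanonicalVariety y (D (Fin.last l) + (f + 1)))
    (x : ∀ i, Fin (n i + 1) → K)
    (hx0 : ∀ i, x i 0 ≠ 0) (hind : AlgebraicIndependent ℂ (affine x))
    (hE0 : E 0 = IntermediateField.adjoin ℂ (Set.range (affine x)))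
    (hm : Multiplicities y ℓ wt x k0)
    (hT : IsTower {P | IsPrimeDivisor y P} (fun _ => 0) E D e e)
    -- the fibre space
    (L : IntermediateField ℂ K) [Algebra.EssFiniteType ℂ L]
    (hL : ∀ x : K, x ∈ L ↔ IsAlgebraic (E (Fin.last l)) x)
    -- the geometric generic fibre
    {Λ F : Type} [Field Λ] [Field F] [Algebra L Λ] [IsAlgClosure L Λ] [Algebra Λ F] [Algebra K F]
    [IsScalarTower L Λ F] [Algebra ℂ Λ] [Algebra ℂ F] [IsScalarTower ℂ L Λ] [IsScalarTower ℂ Λ F]
    [IsScalarTower ℂ K F] (hF : IntermediateField.adjoin Λ (Set.range (algebraMap K F)) = ⊤)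
    -- the constant variety
    (M : IntermediateField ℂ F) [Algebra.EssFiniteType ℂ M]
    (hM : Algebra.trdeg ℂ M = (f + 1 : ℕ))
    (hdom : ∀ z : F, IsAlgebraic (IntermediateField.adjoin Λ (M : Set F)) z) (h : ℕ) :
    (KodTr ℂ M (f + 1) h → KodTr ℂ K (D (Fin.last l) + (f + 1)) (D (Fin.last l) + h)) ∧
    (NumLe Λ F (f + 1) (fun _ => False) h →
      NumLe ℂ K (D (Fin.last l) + (f + 1)) (fun _ => False) (D (Fin.last l) + h)) := by
  have hsum : D (Fin.last l) = D 0 + ∑ i, e i :=
    Pool.Agent.X180.TP.dims fun i => (hT.2 i).2.1
  have hb := Pool.Agent.X325.OB.lc_hbase (fun i => (hℓ.1 i).1) (fun i => (hℓ.1 i).2) hℓ.2 hy hx0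
    hind hE0 Finset.univ k0 (fun P hP a v h1 h2 => by
      obtain ⟨h5, h6⟩ := hm P hP a v h1 h2
      exact ⟨h5, fun ⟨i, _, hi⟩ => h6 ⟨i, hi⟩⟩) hT
  have h1 := Pool.Agent.X325.OB.geo_top (k := D 0) hy hT (fun lam' h0 => by
    obtain ⟨h2, h3⟩ := hb lam' h0
    rw [← h2] at h3
    exact h3) L hL hF M hM hdom h
  rw [← hsum] at h1
  exact h1

end Pool.Agent.Results.MP_c1e25c_ag.FibresDominatingConstant
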