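import Pool.Agent.X180.OJ.PairBase

/-!
# Good minimal models of pairs over towers of products of constant orbifolds and arrangements

Let `(X, Δ)` be a projective pair, `Γ` an effective `ℚ`-divisor such that `K_X + Δ - Γ` is
pseudo-effective (for instance `Γ = 0`), and

  `X ⇢ W_l ⇢ ... ⇢ W_1 ⇢ W_0`, `l ≥ 0`,

dominant rational maps. A prime divisor of `X` is *negligible* if it is in the support of `Γ`, or in
the base locus of all `m (K_X + Δ + η A)`, for small `η ≥ 0` (`A` an effective divisor). So the
divisors which are contracted by each minimal model of `(X, Δ)` may be neglected. Suppose: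

* (the base) for some `m > 0` there are `m`-canonical forms on `W_0` with `dim W_0` algebraically
  independent ratios, with poles of order at most `m (1 - (1 - Δ_P) / ν)` at the place `p` of the
  function field of `W_0`, if the prime divisor `P` of `X`, not negligible, lies over `p`, with
  multiplicity `ν` (and of order at most `m`, if `Δ_P ≥ 1`). That is, the orbifold base of `(X, Δ)`
  over `W_0`, computed with the divisors which are not negligible, is of log general type. (`W_0` may
  be a point: then there is no condition.)
* (the steps of the tower) for each `i < l` the fibres of `W_{i+1}` over `W_i`, of dimension `e_i`,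
  *with the boundary `Δ` and the multiplicities of the fibres of `X` over `W_{i+1}`*, correspond to
  the product of one orbifold `V_i` (which does not depend on the point of `W_i`) and of moving log
  canonical arrangements: there are a variety `X'` with a generically finite map `X' ⇢ X` (ramified
  anywhere) and a rational map of `X'` to `V_i × P^{r_1} × ... × P^{r_c}`, `r_j ≥ 1`, which is dominant
  on the fibres of `X'` over `W_i`, and whose fibres (over `W_i`) are, up to finite maps, the fibres of
  `X' ⇢ W_{i+1}`; `a (p) ≥ 0` is the log discrepancy of an orbifold divisor at the places `p` of `V_i`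
  in the image of the prime divisors of `X` (not negligible), and the Kodaira dimension of `(V_i, a)`
  is at least `h_i`; in each `P^{r_j}` there are any hyperplanes `A j k = 0`, in any position, which
  move with the point of a variety finite over `W_i`, with weights `w j k ≥ 0`, such that the
  arrangement is log canonical (the sum of the weights of hyperplanes with a common point is at most
  the codimension of their intersection) and `∑ k, w j k ≥ r_j + 1`. Let `Q` be a place of the function
  field of `X'` over a prime divisor `P` of `X`, not negligible, with `Δ_P < 1`, which dominates `W_i`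
  but not `W_{i+1}`, with ramification index `ε`, let `e j k` be the multiplicities of the hyperplanes
  at `Q`, and `R = ∑ (mx_j - ∑ w j k e j k)`, where `mx_j` is the greatest sum of `r_j + 1` of the
  `e j k` whose hyperplanes have no common point. Then `ε (1 - Δ_P) ≤ ν a (p) + R` if `Q` lies over the
  place `p` of `V_i`, with ramification index `ν`; and if `Q` dominates `V_i` then `ε (1 - Δ_P) ≤ R`, or
  `ε (1 - Δ_P) ≤ 1` if all `e j k` are zero. Suppose that `h_i` plus the sum of the `r_j` with
  `∑ k, w j k > r_j + 1` is `e_i`.
* (the fibres of `X` over `W_l`, of any log Kodaira dimension) there is a correspondence `X'` as above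
  between `X` and a relative product `P^{r_1} × ... × P^{r_c}` over `W_l` (`c = 0` is allowed), with log
  canonical moving hyperplane arrangements with weights in `[0, 1]` (with any sum) and
  `ε (1 - Δ_P) ≤ R` (`ε (1 - Δ_P) ≤ 1`, if all `e j k` are zero) at the prime divisors of `X`, not
  negligible, with `Δ_P < 1`, which dominate `W_l`; and at the places over the prime divisors of the
  product `K_X + Δ` is at most the pull back of the log canonical divisor of the arrangement (`Cor`).

Then `∑ k, w j k ≥ r_j + 1` for all `j` (for the fibres over `W_l`), and

  `κ(K_X + Δ') = ν(K_X + Δ') = dim W_l + λ`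

for all `Δ'` which are equal to `Δ` outside of `Γ` and larger than `Δ - Γ` along `Γ`, where `λ` is the
sum of the `r_j` with `∑ k, w j k > r_j + 1`. There is no condition at all along the components of `Δ`
with coefficient `≥ 1`.

For klt pairs the equality `κ = ν` is equivalent to the existence of a good minimal model, and then
the minimal model program with scaling of an ample divisor terminates with it (Lai, Gongyo and
Lehmann, Birkar, Cascini, Hacon and McKernan, Hacon and Xu). So if `(X, Δ')` is klt (for instance
`(X, Δ)` lc and all components of `Δ` with coefficient `1`, and enough other divisors, contained in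
`Γ`), then there is a finite sequence of steps of the `(K_X + Δ')`-MMP to a pair with `K + Δ'` nef.

Notation: `X` is given by the homogeneous coordinates `y` of its generic point, with values in the
function field `K`; prime divisors are places `P` of `K`, `P.ord` is the order along `P`. `E i` is the
function field of `W_i`. Definitions: `Pool/Agent/X180/OJ/Defs` (`JointFibres`, `IsTower`),
`OJ/PairBaseDefs` (`BaseKodGe`), `OP/Defs`, `AbDefs`.

Proof: the forms of a step are products of the pull backs of the forms of `V_i`, of determinants of
logarithmic derivatives of the linear forms, and of one joint Wronskian of the coordinates of `V_i` and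
of the `P^{r_j}`; locally, at `Q`, one compares with the arrangement enlarged by a simplex of
logarithmic coordinates of `V_i` at `p` (`Pool.Agent.X180.OJ.joint_est`). The coefficients are
algebraic over the function field of `W_{i+1}`, and their norms are estimated at the prime divisors of
`X` (`Pool.Agent.X180.OJ.joint_part`). The forms of the steps and of the base are multiplied along
adapted regular vector fields. For the upper bound, sections of `m (K_X + Δ) + A` are pulled back to
`X'`; their traces are polynomials of bounded degree in the coordinates of the factors with
`∑ k, w j k = r_j + 1`.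
-/

set_option autoImplicit false

open FF Pool.Agent.W602.GT Pool.Agent.Y172 Pool.Agent.Y191 Pool.Agent.X180.OP
open Pool.Agent.X180.OJ

namespace Pool.Agent.Results.MP_c1e25c_ag.JointTowersOverOrbifoldBases

/-- **Abundance.** Let `(X, Δ)` be a projective pair, `Γ` and `A` effective `ℚ`-divisors such that
`K_X + Δ - Γ` is pseudo-effective (tested with `A`), and `X ⇢ W_l ⇢ ... ⇢ W_0` a tower of dominant
rational maps such that the orbifold base of `(X, Δ)` over `W_0` is of log general type, and the steps
are as in `JointFibres`, of dimensions and log Kodaira dimensions `e i`, both for the relevant prime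
divisors of `X`. Let the fibres of `X` over `W_l` be as in `Fibres`. Then `r j + 1 ≤ ∑ i, w j i` for all
`j`, and the Kodaira dimension and the numerical dimension of `K_X + Δ'` are `dim W_l` plus the sum of
the `r j` with `r j + 1 < ∑ i, w j i`, for all `Δ'` which are equal to `Δ` outside of `Γ` and larger
than `Δ - Γ` along `Γ`. -/
theorem result (K : Type) [Field K] [Algebra ℂ K] (N l c : ℕ)
    (E : Fin (l + 1) → IntermediateField ℂ K) (D : Fin (l + 1) → ℕ) (e : Fin l → ℕ)
    (r s : Fin c → ℕ) (y : Fin (N + 1) → K)
    (Δ Γ A : Place ℂ K → ℚ) (hy : IsPair y (D (Fin.last l) + ∑ j, r j) Δ) (hΓ : Effective y Γ)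
    (hA : Effective y A) (hps : PseudoEffective y (D (Fin.last l) + ∑ j, r j) (Δ - Γ) A)
    [Algebra.EssFiniteType ℂ (E 0)]
    (hY : BaseKodGe (Relevant y (D (Fin.last l) + ∑ j, r j) Δ Γ A) (fun P => (Δ P : ℝ))
      (E 0) (D 0) (D 0))
    (hT : IsTower (Relevant y (D (Fin.last l) + ∑ j, r j) Δ Γ A) (fun P => (Δ P : ℝ)) E D e e)
    (w : ∀ j, Fin (s j) → ℚ)
    (hF : Fibres y (D (Fin.last l) + ∑ j, r j) Δ
      {P | P ∈ Relevant y (D (Fin.last l) + ∑ j, r j) Δ Γ A ∧ Δ P < 1} (E (Fin.last l)) r s w) :
    Abundance y (D (Fin.last l) + ∑ j, r j) Δ Γ (D (Fin.last l)) r s w := by
  have hn : D (Fin.last l) + ∑ j, r j = D 0 + (∑ i, e i + ∑ j, r j) := by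
    rw [Pool.Agent.X180.TP.dims fun i => (hT.2 i).2.1, add_assoc]
  have hK : Algebra.trdeg ℂ K = (D 0 + (∑ i, e i + ∑ j, r j) : ℕ) := by
    rw [← hn]
    exact hy.2.1
  exact tow_ab hy hΓ hA hps hT (fun _ => rfl) hF fun lam' h0 =>
    pair_base hK (hT.1 0) (fun P hP => Rat.cast_nonneg.2 (hy.2.2.1 P hP.1)) hY h0

end Pool.Agent.Results.MP_c1e25c_ag.JointTowersOverOrbifoldBases
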