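import Pool.Agent.X180.OP.Mix
import Pool.Agent.X180.Abn.Sys1

/-!
# Good minimal models of klt pairs over towers with orbifold and isotrivial steps

Let `(X, Δ)` be a projective pair, `Γ` an effective `ℚ`-divisor such that `K_X + Δ - Γ` is
pseudo-effective (for instance `Γ = 0`), and

  `X ⇢ W_l ⇢ ... ⇢ W_1 ⇢ W_0`, `l ≥ 0`,

dominant rational maps, where `W_0`, of dimension `≥ 1`, is the image of a linear system `V` of
dimension `n` on `X`. A prime divisor of `X` is *negligible* if it is in the support of `Γ`, or in the
base locus of all `m (K_X + Δ + η A)`, for small `η ≥ 0` (`A` an effective divisor). So the divisors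
which are contracted by each minimal model of `(X, Δ)` may be neglected. Suppose:

* (the base) there are members `D_i` of `V`, given by elements `φ i`, which span `V` such that `V` is
  not the direct sum of two nonzero subspaces which together contain all the `φ i`, and if a prime
  divisor `P` of `X` which is not negligible is in one of the `D_i` then the multiplicities of `P` in
  some `D_i` and `D_i'` differ by at least `t (1 - Δ_P)`, where
  `2 t > R (n - dim W_0 + 1) (n - dim W_0 + 2)`, `R = n + 2` (and even `R = n + 1`, if there are
  `n + 3` different members `D_i`). There is no condition along the components of `Δ` with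
  coefficient `1`. The `D_i` are in arbitrary position otherwise;
* (the steps of the tower) for each `i < l` one of the following:
  * (orbifold) the fibres of `W_{i+1}` over `W_i`, *with the boundary `Δ` and the multiplicities of
    the fibres of `X` over `W_{i+1}`*, correspond to moving log canonical arrangements of log general
    type: there is a variety `X'` with a generically finite map `X' ⇢ X` (ramified anywhere) and a
    rational map over `W_i` of `X'` to a relative product of projective spaces
    `P^{r_1} × ... × P^{r_c}`, `r_j ≥ 1`, whose fibres are, up to finite maps, the fibres of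
    `X' ⇢ W_{i+1}`; in each `P^{r_j}` there are any hyperplanes `A j k = 0`, in any position, which
    move with the point of a variety finite over `W_i`, with weights `w j k ≥ 0`, such that the
    arrangement is log canonical (the sum of the weights of hyperplanes with a common point is at most
    the codimension of their intersection) and `∑ k, w j k > r_j + 1`. If `Q` is a place of the
    function field of `X'` over a prime divisor `P` of `X`, not negligible, which dominates `W_i` but
    not `W_{i+1}`, with ramification index `ε`, and `e j k` are the multiplicities of the hyperplanes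
    at `Q`, not all zero, then `ε (1 - Δ P) ≤ ∑ (mx_j - ∑ w j k e j k)`, where `mx_j` is the greatest
    sum of `r_j + 1` of the `e j k` whose hyperplanes have no common point (`ε (1 - Δ P) ≤ 1`, if all
    `e j k` are zero);
  * (isotrivial) after a generically finite base change `W_i' → W_i` the variety
    `W_{i+1} ×_{W_i} W_i'` has a generically finite rational map to `W_i' × V_i` over `W_i'`, where
    `V_i` is a smooth projective variety of general type of dimension `dim W_{i+1} - dim W_i`;
* (the fibres of `X` over `W_l`, of any log Kodaira dimension) there is a correspondence `X'` as above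
  between `X` and a relative product `P^{r_1} × ... × P^{r_c}` over `W_l`, with log canonical moving
  hyperplane arrangements with weights in `[0, 1]` (with any sum) and the same condition at the prime
  divisors of `X`, not negligible, which dominate `W_l`; and at the places over the prime divisors of
  the product `K_X + Δ` is at most the pull back of the log canonical divisor of the arrangement
  (`Cor`).

Then `∑ k, w j k ≥ r_j + 1` for all `j` (for the fibres over `W_l`), and

  `κ(K_X + Δ') = ν(K_X + Δ') = dim W_l + λ`

for all `Δ'` which are equal to `Δ` outside of `Γ` and larger than `Δ - Γ` along `Γ`, where `λ` is the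
sum of the `r_j` with `∑ k, w j k > r_j + 1`.

For klt pairs the equality `κ = ν` is equivalent to the existence of a good minimal model, and then
the minimal model program with scaling of an ample divisor terminates with it (Lai, Gongyo and
Lehmann, Birkar, Cascini, Hacon and McKernan, Hacon and Xu). So if `(X, Δ')` is klt (for instance
`(X, Δ)` lc and all components of `Δ` with coefficient `1`, and enough other divisors, contained in
`Γ`), then there is a finite sequence of steps of the `(K_X + Δ')`-MMP to a pair with `K + Δ'` nef.

Notation: `X` is given by the homogeneous coordinates `y` of its generic point, with values in the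
function field `K`; prime divisors are places `P` of `K`, `P.ord` is the order along `P`. `E i` is the
function field of `W_i`. Definitions: `Pool/Agent/X180/OP/Defs`, `AbDefs`, `MixDefs`.

Proof: for an orbifold step `Z' → Z` of the tower the products of determinants of logarithmic
derivatives of the linear forms are forms of degree `dim Z' - dim Z` along the fibres; their norms are
estimated at the prime divisors of `X` (`Pool.Agent.X180.Orb`); for an isotrivial step the norms of the
pluricanonical forms of `V_i` are used. They are multiplied with adapted regular vector fields, and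
with products of generalised Wronskians of the `φ i` (`Pool.Agent.TH585.SV.lin_fib`, starting library).
For the upper bound, sections of `m (K_X + Δ) + A` are pulled back to `X'`; their traces are
polynomials of bounded degree in the coordinates of the factors with `∑ k, w j k = r_j + 1`.
-/

set_option autoImplicit false

open FF Pool.Agent.W602.GT Pool.Agent.Y172 Pool.Agent.Y191 Pool.Agent.X180.OP

namespace Pool.Agent.Results.MP_c1e25c_ag.MixedTowers

section

variable {K : Type} [Field K] [Algebra ℂ K]

/-- The function field of the image of the rational map which is given by the linear system `V`: the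
field generated by the quotients of the members. -/
noncomputable def ImageField (V : Submodule ℂ K) : IntermediateField ℂ K :=
  IntermediateField.adjoin ℂ {y : K | ∃ f ∈ V, ∃ g ∈ V, y = f / g}

/-- `V` is not the direct sum of two nonzero subspaces which together contain all the `φ i`. -/
def Indecomposable {q : ℕ} (V : Submodule ℂ K) (φ : Fin q → K) : Prop :=
  ∀ V₁ V₂ : Submodule ℂ K, V₁ ⊔ V₂ = V → V₁ ⊓ V₂ = ⊥ → (∀ i, φ i ∈ V₁ ∨ φ i ∈ V₂) →
    V₁ = ⊥ ∨ V₂ = ⊥

/-- There are `r` members `φ i` of which no two are proportional. -/
def Different (r : ℕ) {q : ℕ} (φ : Fin q → K) : Prop :=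
  ∃ τ : Fin r → Fin q, ∀ i j, i ≠ j → ∀ t : ℂ, φ (τ i) ≠ t • φ (τ j)

/-- The condition on the multiplicities: if the prime divisor `P` of `X` in `S` is a component of one
of the divisors `D i` (the order of `φ i` at `P` is not the minimum `a` of the orders of the members
of `V`), then for some members `D i`, `D i'` the difference of the multiplicities of `P` is at least
`t (1 - Δ P)`. -/
def SystemMultiplicities (S : Set (Place ℂ K)) (Δ : Place ℂ K → ℚ) {q : ℕ} (V : Submodule ℂ K)
    (φ : Fin q → K) (t : ℝ) : Prop :=
  ∀ P ∈ S, ∀ a : ℤ, (∀ f ∈ V, f = 0 ∨ a ≤ P.ord f) →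
    (∃ f ∈ V, f ≠ 0 ∧ P.ord f = a) → (∃ i, P.ord (φ i) ≠ a) →
    ∃ i i', t * (1 - Δ P) ≤ ((P.ord (φ i) - P.ord (φ i') : ℤ) : ℝ)

end

/-- **Abundance.** Let `(X, Δ)` be a projective pair, `Γ` and `A` effective `ℚ`-divisors such that
`K_X + Δ - Γ` is pseudo-effective (tested with `A`), `V` a linear system on `X` of dimension `n`
whose rational map has the image `W_0`, `1 ≤ D 0 = dim W_0 ≤ n`, and `X ⇢ W_l ⇢ ... ⇢ W_0` a mixed
tower whose steps are of (log) general type. Let `φ i` be nonzero members which span `V`, such that
`V` is not the direct sum of two nonzero subspaces which together contain all the `φ i`. Let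
`R = n + 2`, or `R = n + 1` if there are `n + 3` different members `φ i`, and
`t > R (n - D 0 + 1) (n - D 0 + 2) / 2` a number for which the condition on the multiplicities holds
at the relevant prime divisors. Let the fibres of `X` over `W_l` be as in `Fibres`. Then
`r j + 1 ≤ ∑ i, w j i` for all `j`, and the Kodaira dimension and the numerical dimension of
`K_X + Δ'` are `dim W_l` plus the sum of the `r j` with `r j + 1 < ∑ i, w j i`, for all `Δ'` which are
equal to `Δ` outside of `Γ` and larger than `Δ - Γ` along `Γ`. -/
theorem result {n q : ℕ} (K : Type) [Field K] [Algebra ℂ K] (N l c : ℕ)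
    (E : Fin (l + 1) → IntermediateField ℂ K) (D : Fin (l + 1) → ℕ) (e : Fin l → ℕ)
    (hd : 1 ≤ D 0) (hdn : D 0 ≤ n) (r s : Fin c → ℕ) (y : Fin (N + 1) → K)
    (Δ Γ A : Place ℂ K → ℚ) (hy : IsPair y (D (Fin.last l) + ∑ j, r j) Δ) (hΓ : Effective y Γ)
    (hA : Effective y A) (hps : PseudoEffective y (D (Fin.last l) + ∑ j, r j) (Δ - Γ) A)
    (V : Submodule ℂ K) (hn : Module.finrank ℂ V = n + 1) (hE0 : E 0 = ImageField V)
    (hT : IsMixedTower (Relevant y (D (Fin.last l) + ∑ j, r j) Δ Γ A)
      (fun P => (Δ P : ℝ)) E D e e)
    (φ : Fin q → K) (hφ0 : ∀ i, φ i ≠ 0) (hφ : Submodule.span ℂ (Set.range φ) = V)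
    (hI : Indecomposable V φ) (R : ℕ) (hR : R = n + 2 ∨ (Different (n + 3) φ ∧ R = n + 1)) (t : ℝ)
    (ht : (R : ℝ) * (((n : ℝ) - D 0 + 1) * ((n : ℝ) - D 0 + 2)) < 2 * t)
    (hm : SystemMultiplicities (Relevant y (D (Fin.last l) + ∑ j, r j) Δ Γ A) Δ V φ t)
    (w : ∀ j, Fin (s j) → ℚ)
    (hF : Fibres y (D (Fin.last l) + ∑ j, r j) Δ (Relevant y (D (Fin.last l) + ∑ j, r j) Δ Γ A)
      (E (Fin.last l)) r s w) :
    Abundance y (D (Fin.last l) + ∑ j, r j) Δ Γ (D (Fin.last l)) r s w := by
  have hn' : D (Fin.last l) + ∑ j, r j = D 0 + (∑ i, e i + ∑ j, r j) := by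
    rw [Pool.Agent.X180.TP.dims fun i => (hT.2 i).2.1, add_assoc]
  have hV : Algebra.trdeg ℂ (ImageField V) = (D 0 : ℕ) := by
    rw [← hE0]
    exact hT.1 0
  have hK : Algebra.trdeg ℂ K = (D 0 + (∑ i, e i + ∑ j, r j) : ℕ) := by
    rw [hy.2.1, hn']
  refine ab_mix hy hΓ hA hps hT (fun _ => rfl) hF fun lam' h0 => ?_
  rw [hE0] at h0
  refine (Pool.Agent.X180.Iso.sys_pair (c := 1) hd hdn hK hV hφ0 hφ
    (Pool.Agent.X180.Abn.dcp_one hφ hn) (Pool.Agent.X180.Abn.not_dcp hI)
    (hR.imp (fun h => by omega) fun h => ⟨rfl, h⟩) ht.le
    (fun P hP => Rat.cast_nonneg.2 (hy.2.2.1 P hP.1)) (fun P hPX _ a ha hb hc => ?_)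
    h0).2 ht (D 0) (by omega)
  obtain ⟨i, i', h⟩ := hm P hPX a ha hb hc
  exact ⟨i, i', rfl, h⟩

end Pool.Agent.Results.MP_c1e25c_ag.MixedTowers
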