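import Pool.Agent.X325.OB.SmallTower
import Pool.Agent.X180.OP.MixDefsB

/-!
# Good minimal models of klt pairs over mixed towers over subvarieties of projective space

Let `(X, Δ)` be a projective pair, `Γ` an effective `ℚ`-divisor such that `K_X + Δ - Γ` is
pseudo-effective (for instance `Γ = 0`), and

  `X ⇢ W_l ⇢ ... ⇢ W_1 ⇢ W_0 ⊂ P^v`, `l ≥ 0`,

dominant rational maps, where `W_0` is any subvariety of `P^v`, of dimension `D 0`. A prime divisor
of `X` is *negligible* if it is in the support of `Γ`, or in the base locus of all
`m (K_X + Δ + η A)`, for small `η ≥ 0` (`A` an effective divisor). So the divisors which are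
contracted by each minimal model of `(X, Δ)` may be neglected. Suppose:

* (the base) `ℓ i = 0`, `i < q`, are hyperplanes in general position which do not contain `W_0`, such
  that the points `ℓ i` impose independent conditions on the forms of degree `d`, with weights
  `wt i ≥ 0` whose sum is at least `(D 0 + 1) γ`, `γ = (v - D 0 + d).choose (v - D 0)`; if `μ i` are
  the multiplicities of the hyperplanes `ℓ i = 0` at the prime divisor `P` of `X`, not negligible (for
  the divisors without fixed component which the map defines), not all zero, then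
  `min (#{i | μ i ≠ 0}) γ ≤ γ Δ_P + ∑ i, (1 - wt i) μ i`. In the *borderline case*, when the sum of
  the weights is equal to `(D 0 + 1) γ`, the inequality is strict if the multiplicity `μ k0` of one
  distinguished hyperplane is positive. (If `W_0 = P^{D 0}` then `γ = 1`, and the borderline case is
  the one in which the orbifold base is of log Calabi-Yau type.) There is no condition along the
  components of `Δ` with coefficient `1` if `wt i < 1` for all `i`;
* (the steps of the tower) for each `i < l` one of the following:
  * (orbifold) the fibres of `W_{i+1}` over `W_i`, *with the boundary `Δ` and the multiplicities of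
    the fibres of `X` over `W_{i+1}`*, correspond to moving log canonical arrangements of log general
    type (`OrbifoldFibres`);
  * (isotrivial) after a generically finite base change `W_i' → W_i` the variety
    `W_{i+1} ×_{W_i} W_i'` has a generically finite rational map to `W_i' × V_i` over `W_i'`, where
    `V_i` is a smooth projective variety of general type of dimension `dim W_{i+1} - dim W_i`;
* (the fibres of `X` over `W_l`, of any log Kodaira dimension) there is a correspondence `X'` between
  `X` and a relative product `P^{r_1} × ... × P^{r_c}` over `W_l`, with log canonical moving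
  hyperplane arrangements with weights in `[0, 1]`, with conditions on the multiplicities at the prime
  divisors of `X`, not negligible, which dominate `W_l`; and at the places over the prime divisors of
  the product `K_X + Δ` is at most the pull back of the log canonical divisor of the arrangement
  (`Fibres`).

Then `∑ k, w j k ≥ r_j + 1` for all `j` (for the fibres over `W_l`), and

  `κ(K_X + Δ') = ν(K_X + Δ') = dim W_l + λ`

for all `Δ'` which are equal to `Δ` outside of `Γ` and larger than `Δ - Γ` along `Γ`, where `λ` is the
sum of the `r_j` with `∑ k, w j k > r_j + 1`.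

For klt pairs the equality `κ = ν` is equivalent to the existence of a good minimal model, and then
the minimal model program with scaling of an ample divisor terminates with it (Lai, Gongyo and
Lehmann, Birkar, Cascini, Hacon and McKernan, Hacon and Xu). So if `(X, Δ')` is klt then there is a
finite sequence of steps of the `(K_X + Δ')`-MMP to a pair with `K + Δ'` nef.

Proof: the inequality at the finitely many prime divisors of `X` over the distinguished hyperplane is
strict, so the weight of this hyperplane can be raised; then the base is of general type, with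
products of Wronskians of hyperplane sections of `W_0` (`Pool.Agent.Y191.small_fib`), at the prime
divisors with `∑ wt i μ i` poles. The steps of the tower are treated in `Pool.Agent.X180.OP.Mix`.
The definitions are those of `Pool/Agent/X180/OP/Defs`, `AbDefs`, `MixDefsB`.
-/

set_option autoImplicit false

open FF Pool.Agent.W602.GT Pool.Agent.Y172 Pool.Agent.Y191
open Pool.Agent.X180.OP (IsPair Fibres PseudoEffective Relevant Abundance)
open Pool.Agent.X180.OM (IsMixedTower)

namespace Pool.Agent.Results.MP_c1e25c_ag.TowersOverSubvarieties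

/-- The function field of the image of the rational map with the coordinates `b j`. -/
noncomputable def ImageField {K : Type} [Field K] [Algebra ℂ K] {v : ℕ} (b : Fin (v + 1) → K) :
    IntermediateField ℂ K :=
  IntermediateField.adjoin ℂ {f : K | ∃ i j, b j ≠ 0 ∧ f = b i / b j}

/-- The `b j` are the coordinates of a rational map whose image has dimension `p` and is not
contained in one of the hyperplanes `ℓ i = 0`. -/
def IsMap {K : Type} [Field K] [Algebra ℂ K] {v q : ℕ} (ℓ : Fin q → Fin (v + 1) → ℂ)
    (b : Fin (v + 1) → K) (p : ℕ) : Prop :=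
  (∀ i, ∑ j, algebraMap ℂ K (ℓ i j) * b j ≠ 0) ∧ (∃ j, b j ≠ 0) ∧
    Algebra.trdeg ℂ (ImageField b) = p

/-- The multiplicities over the base, at the prime divisors `P ∈ S` of `X`: if the hyperplanes
`ℓ i = 0` have the multiplicities `μ i` at `P`, not all zero, then
`min (#{i | μ i ≠ 0}) γ ≤ γ Δ_P + ∑ i, (1 - wt i) μ i`, with strict inequality if the sum of the
weights is `p * γ` and the multiplicity of the distinguished hyperplane `k0` is positive. -/
def Multiplicities {K : Type} [Field K] [Algebra ℂ K] {v q : ℕ} (S : Set (Place ℂ K))
    (Δ : Place ℂ K → ℚ) (ℓ : Fin q → Fin (v + 1) → ℂ) (b : Fin (v + 1) → K) (wt : Fin q → ℚ)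
    (p γ : ℕ) (k0 : Fin q) : Prop :=
  ∀ P ∈ S, ∀ (a : ℤ) (μ : Fin q → ℕ), MOrd P (fun k j => algebraMap ℂ K (ℓ k j)) b a μ → μ ≠ 0 →
    ((min (Finset.univ.filter fun i => μ i ≠ 0).card γ : ℕ) : ℚ) ≤
      (γ : ℕ) * Δ P + ∑ i, (1 - wt i) * μ i ∧
    (((p * γ : ℕ) : ℚ) = ∑ i, wt i → μ k0 ≠ 0 →
      ((min (Finset.univ.filter fun i => μ i ≠ 0).card γ : ℕ) : ℚ) <
        (γ : ℕ) * Δ P + ∑ i, (1 - wt i) * μ i)

/-- **Abundance.** Let `ℓ i = 0` be hyperplanes in `P^v` in general position which impose
independent conditions on the forms of degree `d ≥ 1`. Let `(X, Δ)` be a projective pair, `Γ` and `A`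
effective `ℚ`-divisors such that `K_X + Δ - Γ` is pseudo-effective (tested with `A`), `b` the
coordinates of a rational map `X ⇢ P^v` whose image is the bottom `W_0`, of dimension `D 0`, not
contained in a hyperplane `ℓ i = 0`, of a mixed tower `X ⇢ W_l ⇢ ... ⇢ W_0` whose steps are of (log)
general type. Let `wt i ≥ 0` be weights whose sum is at least `(D 0 + 1) * γ`, where
`γ = (v - D 0 + d).choose (v - D 0)`, such that the condition `Multiplicities` holds at the relevant
prime divisors of `X`. Let the fibres of `X` over `W_l` be as in `Fibres`. Then `r j + 1 ≤ ∑ i, w j i`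
for all `j`, and the Kodaira dimension and the numerical dimension of `K_X + Δ'` are `dim W_l` plus
the sum of the `r j` with `r j + 1 < ∑ i, w j i`, for all `Δ'` which are equal to `Δ` outside of `Γ`
and larger than `Δ - Γ` along `Γ`. -/
theorem result {v q d : ℕ} (hd : 0 < d) (ℓ : Fin q → Fin (v + 1) → ℂ) (hI : Independent d ℓ)
    (hg : GeneralPosition ℓ) (hq : v + 1 ≤ q) (K : Type) [Field K] [Algebra ℂ K]
    (N l c : ℕ) (E : Fin (l + 1) → IntermediateField ℂ K) (D : Fin (l + 1) → ℕ) (e : Fin l → ℕ)
    (r s : Fin c → ℕ) (y : Fin (N + 1) → K) (Δ Γ A : Place ℂ K → ℚ)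
    (hy : IsPair y (D (Fin.last l) + ∑ j, r j) Δ) (hΓ : Effective y Γ)
    (hA : Effective y A) (hps : PseudoEffective y (D (Fin.last l) + ∑ j, r j) (Δ - Γ) A)
    (b : Fin (v + 1) → K) (hb : IsMap ℓ b (D 0)) (hE0 : E 0 = ImageField b)
    (wt : Fin q → ℚ) (hwt : ∀ i, 0 ≤ wt i)
    (hs : (((D 0 + 1) * (v - D 0 + d).choose (v - D 0) : ℕ) : ℚ) ≤ ∑ i, wt i) (k0 : Fin q)
    (hm : Multiplicities (Relevant y (D (Fin.last l) + ∑ j, r j) Δ Γ A) Δ ℓ b wt (D 0 + 1)
      ((v - D 0 + d).choose (v - D 0)) k0)
    (hT : IsMixedTower (Relevant y (D (Fin.last l) + ∑ j, r j) Δ Γ A)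
      (fun P => (Δ P : ℝ)) E D e e)
    (w : ∀ j, Fin (s j) → ℚ)
    (hF : Fibres y (D (Fin.last l) + ∑ j, r j) Δ (Relevant y (D (Fin.last l) + ∑ j, r j) Δ Γ A)
      (E (Fin.last l)) r s w) :
    Abundance y (D (Fin.last l) + ∑ j, r j) Δ Γ (D (Fin.last l)) r s w :=
  Pool.Agent.X325.OB.small_ab hd hI hg hq hy hΓ hA hps hb.1 hb.2.1 hE0 hwt hs k0
    (fun P hP a μ ho hμ => hm P hP a μ (Pool.Agent.X325.OB.mord_ord ho) hμ) hT hF

end Pool.Agent.Results.MP_c1e25c_ag.TowersOverSubvarieties
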